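import Mathlib

/-!
# Product dimension: general facts about realizers
-/

set_option autoImplicit false

namespace Pool.Agent.H328.ProdDim

/-- `HasRealizer P d`: there are `d` linear orders on `P` whose intersection is the order of `P`,
i.e. the dimension of `P` is at most `d`. -/
def HasRealizer (P : Type) [PartialOrder P] (d : ℕ) : Prop :=
  ∃ r : Fin d → P → P → Prop,
    (∀ i, (∀ x, r i x x) ∧ (∀ x y z, r i x y → r i y z → r i x z) ∧
      (∀ x y, r i x y → r i y x → x = y) ∧ (∀ x y, r i x y ∨ r i y x)) ∧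
    ∀ x y, x ≤ y ↔ ∀ i, r i x y

/-- Every partial order has a linear extension, in relational form. -/
theorem exists_linearExt (P : Type) [PartialOrder P] :
    ∃ e : P → P → Prop, (∀ x, e x x) ∧ (∀ x y z, e x y → e y z → e x z) ∧
      (∀ x y, e x y → e y x → x = y) ∧ (∀ x y, e x y ∨ e y x) ∧ ∀ x y, x ≤ y → e x y := by
  obtain ⟨s, hs, hs'⟩ := extend_partialOrder ((· ≤ ·) : P → P → Prop)
  exact ⟨s, fun x => hs.refl x, fun x y z h1 h2 => hs.trans x y z h1 h2,
    fun x y h1 h2 => hs.antisymm x y h1 h2, fun x y => hs.total x y, fun x y h => hs' x y h⟩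

/-- Monotone maps to chains that separate the non-relations give a realizer. -/
theorem hasRealizer_of_maps {P : Type} [PartialOrder P] {ι : Type} [Fintype ι]
    (F : ι → P → ℕ) (hmono : ∀ i, Monotone (F i))
    (hsep : ∀ x y, ¬ x ≤ y → ∃ i, F i y < F i x) : HasRealizer P (Fintype.card ι) := by
  classical
  obtain ⟨e, erefl, etrans, eanti, etot, eext⟩ := exists_linearExt P
  let g := (Fintype.equivFin ι).symm
  refine ⟨fun i x y => F (g i) x < F (g i) y ∨ (F (g i) x = F (g i) y ∧ e x y), fun i => ?_, ?_⟩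
  · refine ⟨fun x => Or.inr ⟨rfl, erefl x⟩, ?_, ?_, ?_⟩
    · rintro x y z (h1 | ⟨h1, h1'⟩) (h2 | ⟨h2, h2'⟩)
      · exact Or.inl (lt_trans h1 h2)
      · exact Or.inl (h2 ▸ h1)
      · exact Or.inl (h1 ▸ h2)
      · exact Or.inr ⟨h1.trans h2, etrans x y z h1' h2'⟩
    · rintro x y (h1 | ⟨h1, h1'⟩) (h2 | ⟨h2, h2'⟩)
      · exact absurd (lt_trans h1 h2) (lt_irrefl _)
      · exact absurd h1 (h2 ▸ lt_irrefl _)
      · exact absurd h2 (h1 ▸ lt_irrefl _)
      · exact eanti x y h1' h2'
    · intro x y
      rcases lt_trichotomy (F (g i) x) (F (g i) y) with h | h | h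
      · exact Or.inl (Or.inl h)
      · rcases etot x y with h' | h'
        · exact Or.inl (Or.inr ⟨h, h'⟩)
        · exact Or.inr (Or.inr ⟨h.symm, h'⟩)
      · exact Or.inr (Or.inl h)
  · intro x y
    constructor
    · intro h i
      rcases lt_or_eq_of_le (hmono (g i) h) with h' | h'
      · exact Or.inl h'
      · exact Or.inr ⟨h', eext x y h⟩
    · intro h
      by_contra hxy
      obtain ⟨i, hi⟩ := hsep x y hxy
      have hgi : g (g.symm i) = i := g.apply_symm_apply i
      have := h (g.symm i)
      dsimp only at this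
      rw [hgi] at this
      rcases this with h' | ⟨h', _⟩
      · exact lt_irrefl _ (lt_trans h' hi)
      · exact lt_irrefl _ (h' ▸ hi)

/-- Having a realizer is monotone in the number of linear orders. -/
theorem HasRealizer.mono {P : Type} [PartialOrder P] {a b : ℕ} (h : HasRealizer P a)
    (hab : a ≤ b) : HasRealizer P b := by
  classical
  obtain ⟨e, erefl, etrans, eanti, etot, eext⟩ := exists_linearExt P
  obtain ⟨r, hr, hr'⟩ := h
  refine ⟨fun i x y => if h : i.1 < a then r ⟨i.1, h⟩ x y else e x y, fun i => ?_, ?_⟩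
  · by_cases hi : i.1 < a
    · simpa only [hi, dif_pos] using hr ⟨i.1, hi⟩
    · simp only [hi, dif_neg, not_false_eq_true]
      exact ⟨erefl, etrans, eanti, etot⟩
  · intro x y
    constructor
    · intro h i
      by_cases hi : i.1 < a
      · simp only [hi, dif_pos]
        exact (hr' x y).1 h _
      · simp only [hi, dif_neg, not_false_eq_true]
        exact eext x y h
    · intro h
      refine (hr' x y).2 fun i => ?_
      have := h ⟨i.1, lt_of_lt_of_le i.2 hab⟩
      simpa only [i.2, dif_pos] using this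

/-- A finite poset has a realizer. -/
theorem hasRealizer_card (P : Type) [PartialOrder P] [Fintype P] :
    HasRealizer P (Fintype.card P) := by
  classical
  refine hasRealizer_of_maps (fun z x => if z ≤ x then 1 else 0) ?_ ?_
  · intro z x y hxy
    by_cases h : z ≤ x
    · simp [h, h.trans hxy]
    · simp [h]
  · intro x y hxy
    exact ⟨x, by simp [hxy]⟩

/-- The poset of height at most two on `A ⊕ B` in which `a < b` iff `R a b`. -/
def Bip {A B : Type} (_R : A → B → Prop) : Type := A ⊕ B

variable {A B : Type} {R : A → B → Prop}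

/-- The order relation of `Bip R`. -/
def Bip.rel (R : A → B → Prop) : A ⊕ B → A ⊕ B → Prop
  | Sum.inl a, Sum.inl a' => a = a'
  | Sum.inl a, Sum.inr b => R a b
  | Sum.inr _, Sum.inl _ => False
  | Sum.inr b, Sum.inr b' => b = b'

instance : PartialOrder (Bip R) where
  le x y := Bip.rel R x y
  le_refl x := by rcases x with a | b <;> simp [Bip.rel]
  le_trans x y z hxy hyz := by
    rcases x with a | b <;> rcases y with a' | b' <;> rcases z with a'' | b'' <;>
      simp_all [Bip.rel]
  le_antisymm x y hxy hyx := by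
    rcases x with a | b <;> rcases y with a' | b' <;> simp_all [Bip.rel] <;> rfl

instance [Fintype A] [Fintype B] : Fintype (Bip R) := inferInstanceAs (Fintype (A ⊕ B))

/-- Lower elements. -/
def Bip.lo (a : A) : Bip R := Sum.inl a
/-- Upper elements. -/
def Bip.up (b : B) : Bip R := Sum.inr b

theorem Bip.cases (x : Bip R) : (∃ a, x = Bip.lo a) ∨ (∃ b, x = Bip.up b) := by
  rcases x with a | b
  · exact Or.inl ⟨a, rfl⟩
  · exact Or.inr ⟨b, rfl⟩

@[simp] theorem Bip.lo_le_lo (a a' : A) : (Bip.lo a : Bip R) ≤ Bip.lo a' ↔ a = a' := Iff.rfl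
@[simp] theorem Bip.lo_le_up (a : A) (b : B) : (Bip.lo a : Bip R) ≤ Bip.up b ↔ R a b := Iff.rfl
@[simp] theorem Bip.up_le_up (b b' : B) : (Bip.up b : Bip R) ≤ Bip.up b' ↔ b = b' := Iff.rfl
@[simp] theorem Bip.up_le_lo (b : B) (a : A) : (Bip.up b : Bip R) ≤ Bip.lo a ↔ False := Iff.rfl

/-- A poset containing the pairs of a standard example with index type `ι` has dimension at least
`|ι|`. -/
theorem card_le_of_standard {Q ι : Type} [PartialOrder Q] [Fintype ι] (a b : ι → Q)
    (h1 : ∀ i j, i ≠ j → a i ≤ b j) (h2 : ∀ i, ¬ a i ≤ b i) {c : ℕ} (h : HasRealizer Q c) :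
    Fintype.card ι ≤ c := by
  classical
  obtain ⟨r, hr, hr'⟩ := h
  have hex : ∀ i, ∃ l, ¬ r l (a i) (b i) := by
    intro i
    by_contra hcon
    push Not at hcon
    exact h2 i ((hr' _ _).2 hcon)
  choose l hl using hex
  have hinj : Function.Injective l := by
    intro i j hij
    by_contra hne
    obtain ⟨_, htr, _, htot⟩ := hr (l i)
    have e1 : r (l i) (b i) (a i) := (htot _ _).resolve_left (hl i)
    have e2 : r (l i) (b j) (a j) := by
      have := hl j
      rw [← hij] at this
      exact (htot _ _).resolve_left this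
    have e3 : r (l i) (a i) (b j) := (hr' _ _).1 (h1 i j hne) _
    have e4 : r (l i) (a j) (b i) := (hr' _ _).1 (h1 j i (Ne.symm hne)) _
    exact hl i (htr _ _ _ e3 (htr _ _ _ e2 e4))
  simpa using Fintype.card_le_of_injective l hinj

/-- The main upper bound.  `f i ≤ g i` are monotone maps such that the intervals `[f i x, g i x]`
of comparable elements overlap; they and the maps `h r` separate all non-relations of `P`.  Then
`P × Q` has dimension at most `|ι| + |κ|` for every poset `Q` of subsets of `ι`. -/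
theorem hasRealizer_prod {P Q ι κ : Type} [PartialOrder P] [PartialOrder Q] [Fintype ι]
    [Fintype κ] (S : Q → Set ι) (hS : ∀ e e', e ≤ e' ↔ S e ⊆ S e')
    (f g : ι → P → ℕ) (hf : ∀ i, Monotone (f i)) (hg : ∀ i, Monotone (g i))
    (hfg : ∀ i x, f i x ≤ g i x) (hII : ∀ i x y, x ≤ y → f i y < g i x)
    (h : κ → P → ℕ) (hh : ∀ r, Monotone (h r))
    (hI : ∀ x y, ¬ x ≤ y → (∃ i, g i y < f i x) ∨ (∃ r, h r y < h r x)) :
    HasRealizer (P × Q) (Fintype.card ι + Fintype.card κ) := by
  classical
  rw [← Fintype.card_sum]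
  let F : ι ⊕ κ → P × Q → ℕ := fun s =>
    match s with
    | Sum.inl i => fun z => if i ∈ S z.2 then g i z.1 else f i z.1
    | Sum.inr r => fun z => h r z.1
  refine hasRealizer_of_maps F ?_ ?_
  · rintro (i | r)
    · rintro ⟨x, e⟩ ⟨y, e'⟩ hxy
      have h1 : x ≤ y := hxy.1
      have h2 : S e ⊆ S e' := (hS _ _).1 hxy.2
      show (if i ∈ S e then g i x else f i x) ≤ (if i ∈ S e' then g i y else f i y)
      by_cases hi : i ∈ S e
      · simp only [hi, h2 hi, if_true]
        exact hg i h1
      · by_cases hi' : i ∈ S e'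
        · simp only [hi, hi', if_true, if_false]
          exact (hf i h1).trans (hfg i y)
        · simp only [hi, hi', if_false]
          exact hf i h1
    · rintro ⟨x, e⟩ ⟨y, e'⟩ hxy
      exact hh r hxy.1
  · rintro ⟨x, e⟩ ⟨y, e'⟩ hxy
    by_cases h1 : x ≤ y
    · have h2 : ¬ S e ⊆ S e' := by
        intro hcon
        exact hxy ⟨h1, (hS _ _).2 hcon⟩
      obtain ⟨i, hi, hi'⟩ := Set.not_subset.1 h2
      refine ⟨Sum.inl i, ?_⟩
      show (if i ∈ S e' then g i y else f i y) < (if i ∈ S e then g i x else f i x)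
      simp only [hi, hi', if_true, if_false]
      exact hII i x y h1
    · rcases hI x y h1 with ⟨i, hi⟩ | ⟨r, hr⟩
      · refine ⟨Sum.inl i, ?_⟩
        show (if i ∈ S e' then g i y else f i y) < (if i ∈ S e then g i x else f i x)
        calc (if i ∈ S e' then g i y else f i y) ≤ g i y := by
              split_ifs
              · exact le_rfl
              · exact hfg i y
          _ < f i x := hi
          _ ≤ (if i ∈ S e then g i x else f i x) := by
              split_ifs
              · exact hfg i x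
              · exact le_rfl
      · exact ⟨Sum.inr r, hr⟩

/-- A pair `(x, y)` of elements is far if nothing below `y` is below something above `x`. -/
def Far {P : Type} [PartialOrder P] (x y : P) : Prop :=
  ∀ x' y', x' ≤ y → x' ≤ y' → ¬ x ≤ y'

/-- If `s` monotone maps separate the non-far non-relations of the finite poset `P`, then the
product of `P` with a poset of subsets of (far pairs + three extra points) has dimension at most
`(number of far pairs) + 3 + s`. -/
theorem hasRealizer_prod_far {P Q κ : Type} [PartialOrder P] [Fintype P] [PartialOrder Q]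
    [Fintype κ] [Fintype {p : P × P // Far p.1 p.2}]
    (S : Q → Set ({p : P × P // Far p.1 p.2} ⊕ Fin 3)) (hS : ∀ e e', e ≤ e' ↔ S e ⊆ S e')
    (h : κ → P → ℕ) (hh : ∀ r, Monotone (h r))
    (hI : ∀ x y, ¬ x ≤ y → ¬ Far x y → (∃ r, h r y < h r x)) :
    HasRealizer (P × Q)
      (Fintype.card ({p : P × P // Far p.1 p.2} ⊕ Fin 3) + Fintype.card κ) := by
  classical
  let f : ({p : P × P // Far p.1 p.2} ⊕ Fin 3) → P → ℕ := fun i z =>
    match i with
    | Sum.inl p => if p.1.1 ≤ z then 2 else 0
    | Sum.inr _ => 0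
  let g : ({p : P × P // Far p.1 p.2} ⊕ Fin 3) → P → ℕ := fun i z =>
    match i with
    | Sum.inl p => if z ≤ p.1.2 then 1 else 3
    | Sum.inr _ => 1
  refine hasRealizer_prod S hS f g ?_ ?_ ?_ ?_ h hh ?_
  · rintro (p | j) x y hxy
    · show (if p.1.1 ≤ x then 2 else 0) ≤ (if p.1.1 ≤ y then 2 else 0)
      by_cases hx : p.1.1 ≤ x
      · simp [hx, hx.trans hxy]
      · simp [hx]
    · exact le_rfl
  · rintro (p | j) x y hxy
    · show (if x ≤ p.1.2 then 1 else 3) ≤ (if y ≤ p.1.2 then 1 else 3)
      by_cases hy : y ≤ p.1.2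
      · simp [hy, hxy.trans hy]
      · simp only [hy, if_false]
        split_ifs <;> omega
    · exact le_rfl
  · rintro (p | j) x
    · show (if p.1.1 ≤ x then 2 else 0) ≤ (if x ≤ p.1.2 then 1 else 3)
      by_cases hx : p.1.1 ≤ x
      · have : ¬ x ≤ p.1.2 := fun h' => p.2 x x h' le_rfl hx
        simp [hx, this]
      · simp [hx]
    · exact Nat.zero_le _
  · rintro (p | j) x y hxy
    · show (if p.1.1 ≤ y then 2 else 0) < (if x ≤ p.1.2 then 1 else 3)
      by_cases hx : p.1.1 ≤ y
      · have : ¬ x ≤ p.1.2 := fun h' => p.2 x y h' hxy hx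
        simp [hx, this]
      · simp only [hx, if_false]
        split_ifs <;> omega
    · exact Nat.zero_lt_one
  · intro x y hxy
    by_cases hfar : Far x y
    · refine Or.inl ⟨Sum.inl ⟨(x, y), hfar⟩, ?_⟩
      show (if y ≤ y then 1 else 3) < (if x ≤ x then 2 else 0)
      simp
    · exact Or.inr (hI x y hxy hfar)

/-- The standard example on an index type. -/
abbrev Std (ι : Type) : Type := Bip (fun i j : ι => i ≠ j)

/-- The representation of the standard example by subsets. -/
def Std.toSet {ι : Type} : Std ι → Set ι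
  | Sum.inl i => {i}
  | Sum.inr i => {i}ᶜ

theorem Std.le_iff {ι : Type} (h3 : ∀ i j : ι, ∃ l, l ≠ i ∧ l ≠ j) (e e' : Std ι) :
    e ≤ e' ↔ Std.toSet e ⊆ Std.toSet e' := by
  rcases e with i | i <;> rcases e' with j | j
  · show i = j ↔ ({i} : Set ι) ⊆ {j}
    simp
  · show i ≠ j ↔ ({i} : Set ι) ⊆ {j}ᶜ
    simp [eq_comm]
  · show False ↔ ({i}ᶜ : Set ι) ⊆ {j}
    refine ⟨False.elim, fun h => ?_⟩
    obtain ⟨l, hl1, hl2⟩ := h3 i j
    exact hl2 (h hl1)
  · show i = j ↔ ({i}ᶜ : Set ι) ⊆ {j}ᶜ
    constructor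
    · rintro rfl
      exact le_rfl
    · intro h
      by_contra hne
      exact h (show j ∈ ({i}ᶜ : Set ι) from fun h' => hne h'.symm) rfl

end Pool.Agent.H328.ProdDim
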