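import Pool.Agent.H328_ProdDim.Grid

/-!
# A choice of copies for which the dimension is large
-/

set_option autoImplicit false

namespace Pool.Agent.H328.ProdDim

/-- Against `k` orders, `k + 1` parameters suffice to build a line that is not handled. -/
theorem exists_bad {α : Type} [DecidableEq α] (k : ℕ) : ∀ (T : Finset α), k < T.card →
    ∀ (ρ : Fin k → α → Bool → ℕ),
      ∃ ψ : α → Bool, ∃ t ∈ T, ∀ j v, ∃ t' ∈ T, ρ j t' (ψ t') ≤ ρ j t v := by
  induction k with
  | zero =>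
    intro T hT ρ
    obtain ⟨t, ht⟩ := Finset.card_pos.1 hT
    exact ⟨fun _ => true, t, ht, fun j => j.elim0⟩
  | succ k ih =>
    intro T hT ρ
    have hne : (T ×ˢ (Finset.univ : Finset Bool)).Nonempty := by
      obtain ⟨t, ht⟩ := Finset.card_pos.1 (lt_of_le_of_lt (Nat.zero_le _) hT)
      exact ⟨(t, true), by simp [ht]⟩
    obtain ⟨⟨y, e⟩, hye, hmin⟩ := Finset.exists_min_image (T ×ˢ (Finset.univ : Finset Bool))
      (fun z => ρ 0 z.1 z.2) hne
    have hyT : y ∈ T := (Finset.mem_product.1 hye).1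
    have hcard : k < (T.erase y).card := by
      rw [Finset.card_erase_of_mem hyT]
      omega
    obtain ⟨ψ, t, ht, hψ⟩ := ih (T.erase y) hcard (fun j => ρ j.succ)
    have htT : t ∈ T := Finset.mem_of_mem_erase ht
    refine ⟨Function.update ψ y e, t, htT, ?_⟩
    intro j v
    refine Fin.cases ?_ (fun j' => ?_) j
    · refine ⟨y, hyT, ?_⟩
      rw [Function.update_self]
      exact hmin (t, v) (by simp [htT])
    · obtain ⟨t', ht', hle⟩ := hψ j' v
      refine ⟨t', Finset.mem_of_mem_erase ht', ?_⟩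
      rw [Function.update_of_ne (Finset.ne_of_mem_erase ht')]
      exact hle

variable {n k N : ℕ}

/-- The choices on the line `a` that are handled by the maps `ρ`. -/
noncomputable def Good (ρ : Fin k → LB n k → Fin N) (a : LA n k) :
    Finset (Fin (k + 1) → Bool) := by
  classical
  exact Finset.univ.filter (fun ψ => ∀ t, ∃ j, ∀ t',
    ρ j (pt a t (!ψ t)) < ρ j (pt a t' (ψ t')))

theorem good_card (ρ : Fin k → LB n k → Fin N) (a : LA n k) :
    (Good ρ a).card ≤ 2 ^ (k + 1) - 1 := by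
  classical
  obtain ⟨ψ, t, -, hψ⟩ := exists_bad k (Finset.univ : Finset (Fin (k + 1))) (by simp)
    (fun j t v => (ρ j (pt a t v) : ℕ))
  have hnot : ψ ∉ Good ρ a := by
    unfold Good
    simp only [Finset.mem_filter, Finset.mem_univ, true_and]
    intro h
    obtain ⟨j, hj⟩ := h t
    obtain ⟨t', -, hle⟩ := hψ j (!ψ t)
    exact absurd (hj t') (not_lt.2 hle)
  have h1 : (Good ρ a).card < Fintype.card (Fin (k + 1) → Bool) := by
    rw [← Finset.card_univ]
    refine Finset.card_lt_card ?_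
    rw [Finset.ssubset_univ_iff]
    intro h
    exact hnot (h ▸ Finset.mem_univ _)
  have h2 : Fintype.card (Fin (k + 1) → Bool) = 2 ^ (k + 1) := by simp
  omega

theorem pt_inj {a : LA n k} {t t' : Fin (k + 1)} {v v' : Bool} (h : pt a t v = pt a t' v') :
    t = t' ∧ v = v' := by
  simp only [pt, Prod.mk.injEq] at h
  refine ⟨?_, h.2.2.2.2⟩
  have := congrFun h.1 a.1
  rwa [Function.update_self, Function.update_self] at this

/-- A realizer yields rank functions for which all choices are handled. -/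
theorem exists_rank (hN : Fintype.card (LB n k) = N) (φ : LA n k → Fin (k + 1) → Bool)
    (h : HasRealizer (Bip (Rel φ)) k) :
    ∃ ρ : Fin k → LB n k → Fin N, ∀ a, φ a ∈ Good ρ a := by
  classical
  obtain ⟨r, hr, hr'⟩ := h
  let cnt : Fin k → LB n k → Finset (LB n k) := fun j b =>
    Finset.univ.filter (fun c => ¬ r j (Bip.up b) (Bip.up c))
  have hself : ∀ j b, b ∉ cnt j b := by
    intro j b
    simp only [cnt, Finset.mem_filter, Finset.mem_univ, true_and, not_not]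
    exact (hr j).1 _
  have hlt : ∀ j b, (cnt j b).card < N := fun j b => by
    rw [← hN]
    exact Finset.card_lt_univ_of_notMem (hself j b)
  have hmono : ∀ j b b', ¬ r j (Bip.up b') (Bip.up b) → (cnt j b).card < (cnt j b').card := by
    intro j b b' hbb
    refine Finset.card_lt_card ?_
    rw [Finset.ssubset_iff_of_subset]
    · refine ⟨b, ?_, hself j b⟩
      simp only [cnt, Finset.mem_filter, Finset.mem_univ, true_and]
      exact hbb
    · intro c hc
      simp only [cnt, Finset.mem_filter, Finset.mem_univ, true_and] at hc ⊢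
      intro hcon
      have h1 : r j (Bip.up c) (Bip.up b) := ((hr j).2.2.2 _ _).resolve_right hc
      exact hbb ((hr j).2.1 _ _ _ hcon h1)
  refine ⟨fun j b => ⟨(cnt j b).card, hlt j b⟩, fun a => ?_⟩
  unfold Good
  simp only [Finset.mem_filter, Finset.mem_univ, true_and]
  intro t
  have hnot : ¬ ((Bip.lo a : Bip (Rel φ)) ≤ Bip.up (pt a t (!φ a t))) := by
    rw [Bip.lo_le_up]
    rintro ⟨t', ht'⟩
    obtain ⟨e1, e2⟩ := pt_inj ht'
    subst e1
    exact absurd e2 (by cases φ a t <;> simp)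
  have hex : ∃ j, ¬ r j (Bip.lo a) (Bip.up (pt a t (!φ a t))) := by
    by_contra hcon
    push Not at hcon
    exact hnot ((hr' _ _).2 hcon)
  obtain ⟨j, hj⟩ := hex
  refine ⟨j, fun t' => ?_⟩
  refine hmono j _ _ ?_
  intro hcon
  apply hj
  have h1 : r j (Bip.lo a) (Bip.up (pt a t' (φ a t'))) :=
    (hr' _ _).1 (by rw [Bip.lo_le_up]; exact ⟨t', rfl⟩) j
  exact (hr j).2.1 _ _ _ h1 hcon

theorem count_bound (hN : Fintype.card (LB n k) = N)
    (h : ∀ φ : LA n k → Fin (k + 1) → Bool, HasRealizer (Bip (Rel φ)) k) :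
    (2 ^ (k + 1)) ^ Fintype.card (LA n k) ≤
      (N ^ N) ^ k * (2 ^ (k + 1) - 1) ^ Fintype.card (LA n k) := by
  classical
  let i1 : Fintype (LB n k → Fin N) := inferInstance
  let i2 : Fintype (Fin k → LB n k → Fin N) := @Pi.instFintype _ _ _ _ (fun _ => i1)
  have hcov : (Finset.univ : Finset (LA n k → Fin (k + 1) → Bool)) ⊆
      (Finset.univ : Finset (Fin k → LB n k → Fin N)).biUnion
        (fun ρ => Fintype.piFinset (Good ρ)) := by
    intro φ _
    obtain ⟨ρ, hρ⟩ := exists_rank hN φ (h φ)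
    simp only [Finset.mem_biUnion, Finset.mem_univ, true_and, Fintype.mem_piFinset]
    exact ⟨ρ, hρ⟩
  have h1 := Finset.card_le_card hcov
  have h2 : (Finset.univ : Finset (LA n k → Fin (k + 1) → Bool)).card =
      (2 ^ (k + 1)) ^ Fintype.card (LA n k) := by
    rw [Finset.card_univ]
    simp [Fintype.card_fun]
  rw [h2] at h1
  refine h1.trans ?_
  refine Finset.card_biUnion_le_card_mul _ _ ((2 ^ (k + 1) - 1) ^ Fintype.card (LA n k)) ?_ |>.trans ?_
  · intro ρ _
    rw [Fintype.card_piFinset]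
    calc ∏ a, (Good ρ a).card ≤ ∏ _a : LA n k, (2 ^ (k + 1) - 1) :=
          Finset.prod_le_prod' fun a _ => good_card ρ a
      _ = _ := by rw [Finset.prod_const, Finset.card_univ]
  · refine Nat.mul_le_mul_right _ (le_of_eq ?_)
    rw [Finset.card_univ, Fintype.card_fun, Fintype.card_fun, Fintype.card_fin, Fintype.card_fin, hN]

/-- Bernoulli. -/
theorem two_mul_pow_le (y : ℕ) (hy : 1 ≤ y) : 2 * y ^ y ≤ (y + 1) ^ y := by
  obtain ⟨z, rfl⟩ : ∃ z, y = z + 1 := ⟨y - 1, by omega⟩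
  have h1 : ({z, z + 1} : Finset ℕ) ⊆ Finset.range (z + 1 + 1) := by
    intro i hi
    simp only [Finset.mem_insert, Finset.mem_singleton] at hi
    simp only [Finset.mem_range]
    omega
  calc 2 * (z + 1) ^ (z + 1) = ∑ i ∈ ({z, z + 1} : Finset ℕ),
        (z + 1) ^ i * 1 ^ (z + 1 - i) * ((z + 1).choose i) := by
        rw [Finset.sum_pair (by omega)]
        simp [pow_succ]
        ring
    _ ≤ ∑ i ∈ Finset.range (z + 1 + 1), (z + 1) ^ i * 1 ^ (z + 1 - i) * ((z + 1).choose i) :=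
        Finset.sum_le_sum_of_subset h1
    _ = (z + 1 + 1) ^ (z + 1) := by
        have := (add_pow (z + 1) 1 (z + 1)).symm
        simpa using this

/-- The choice of parameters. -/
theorem arith (k : ℕ) (hk : 1 ≤ k) : ∃ n : ℕ, 1 ≤ n ∧
    (Fintype.card (LB n k) ^ Fintype.card (LB n k)) ^ k *
      (2 ^ (k + 1) - 1) ^ Fintype.card (LA n k) < (2 ^ (k + 1)) ^ Fintype.card (LA n k) := by
  obtain ⟨y, hy⟩ : ∃ y, y = 2 ^ (k + 1) - 1 := ⟨_, rfl⟩
  have hpow : 2 ≤ 2 ^ (k + 1) := by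
    calc 2 = 2 ^ 1 := by norm_num
      _ ≤ 2 ^ (k + 1) := Nat.pow_le_pow_right (by norm_num) (by omega)
  have hy1 : 1 ≤ y := by omega
  have hY : 2 ^ (k + 1) = y + 1 := by omega
  obtain ⟨q, hq⟩ : ∃ q, q = k + 1 := ⟨_, rfl⟩
  obtain ⟨M, hM⟩ : ∃ M, M = 10 * q ^ 3 * k + 1 := ⟨_, rfl⟩
  obtain ⟨n, hn⟩ : ∃ n, n = y * M := ⟨_, rfl⟩
  refine ⟨n, ?_, ?_⟩
  · rw [hn, hM]
    exact Nat.one_le_iff_ne_zero.2 (by positivity)
  obtain ⟨Z, hZ⟩ : ∃ Z, Z = q ^ n * q ^ n := ⟨_, rfl⟩
  have hA : Fintype.card (LA n k) = y * (y * M ^ 2 * Z) := by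
    simp only [LA, X, Fintype.card_prod, Fintype.card_fin, Fintype.card_fun]
    rw [← hq, hZ, hn]
    ring
  have hB : Fintype.card (LB n k) = 2 * q ^ 2 * Z := by
    simp only [LB, X, Fintype.card_prod, Fintype.card_fin, Fintype.card_fun, Fintype.card_bool]
    rw [← hq, hZ]
    ring
  rw [hY, hA, hB]
  have hqpos : 1 ≤ q := by omega
  have hZpos : 1 ≤ Z := by
    rw [hZ]
    exact Nat.one_le_iff_ne_zero.2 (by positivity)
  have hq2 : q ≤ 2 ^ q := le_of_lt Nat.lt_two_pow_self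
  -- the number of points is at most a power of two
  have hBle : 2 * q ^ 2 * Z ≤ 2 ^ (1 + q * (2 * n + 2)) := by
    calc 2 * q ^ 2 * Z = 2 * q ^ (2 * n + 2) := by
          rw [hZ]
          ring
      _ ≤ 2 * (2 ^ q) ^ (2 * n + 2) := Nat.mul_le_mul_left _ (Nat.pow_le_pow_left hq2 _)
      _ = 2 ^ (1 + q * (2 * n + 2)) := by
          rw [← pow_mul, pow_add, pow_one]
  have h1 : ((2 * q ^ 2 * Z) ^ (2 * q ^ 2 * Z)) ^ k ≤
      2 ^ ((1 + q * (2 * n + 2)) * (2 * q ^ 2 * Z) * k) := by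
    calc ((2 * q ^ 2 * Z) ^ (2 * q ^ 2 * Z)) ^ k ≤
        ((2 ^ (1 + q * (2 * n + 2))) ^ (2 * q ^ 2 * Z)) ^ k :=
          Nat.pow_le_pow_left (Nat.pow_le_pow_left hBle _) _
      _ = _ := by
          rw [← pow_mul, ← pow_mul]
          congr 1
          ring
  have h2 : (1 + q * (2 * n + 2)) * (2 * q ^ 2 * Z) * k < y * M ^ 2 * Z := by
    have h3 : (1 + q * (2 * n + 2)) * (2 * q ^ 2) * k < y * M ^ 2 := by
      have hMpos : 1 ≤ M := by omega
      have hyM : 1 ≤ y * M := Nat.one_le_iff_ne_zero.2 (by positivity)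
      have e1 : 1 + q * (2 * n + 2) ≤ 5 * q * (y * M) := by
        rw [hn]
        have : 1 ≤ q * (y * M) := Nat.one_le_iff_ne_zero.2 (by positivity)
        have h5 : q ≤ q * (y * M) := Nat.le_mul_of_pos_right _ hyM
        nlinarith
      calc (1 + q * (2 * n + 2)) * (2 * q ^ 2) * k ≤ (5 * q * (y * M)) * (2 * q ^ 2) * k :=
            Nat.mul_le_mul_right _ (Nat.mul_le_mul_right _ e1)
        _ = (y * M) * (10 * q ^ 3 * k) := by ring
        _ < (y * M) * M := by
            refine Nat.mul_lt_mul_of_pos_left ?_ hyM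
            omega
        _ = y * M ^ 2 := by ring
    calc (1 + q * (2 * n + 2)) * (2 * q ^ 2 * Z) * k =
        ((1 + q * (2 * n + 2)) * (2 * q ^ 2) * k) * Z := by ring
      _ < (y * M ^ 2) * Z := Nat.mul_lt_mul_of_pos_right h3 hZpos
  have h4 : 2 ^ (y * M ^ 2 * Z) * y ^ (y * (y * M ^ 2 * Z)) ≤ (y + 1) ^ (y * (y * M ^ 2 * Z)) := by
    rw [pow_mul y, pow_mul (y + 1), ← mul_pow]
    exact Nat.pow_le_pow_left (two_mul_pow_le y hy1) _
  have hypos : 0 < y ^ (y * (y * M ^ 2 * Z)) := by positivity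
  simp only [Nat.add_sub_cancel]
  calc ((2 * q ^ 2 * Z) ^ (2 * q ^ 2 * Z)) ^ k * y ^ (y * (y * M ^ 2 * Z))
      ≤ 2 ^ ((1 + q * (2 * n + 2)) * (2 * q ^ 2 * Z) * k) * y ^ (y * (y * M ^ 2 * Z)) :=
        Nat.mul_le_mul_right _ h1
    _ < 2 ^ (y * M ^ 2 * Z) * y ^ (y * (y * M ^ 2 * Z)) :=
        Nat.mul_lt_mul_of_pos_right (Nat.pow_lt_pow_right (by norm_num) h2) hypos
    _ ≤ _ := h4

/-- For every `k ≥ 1` some poset `P(φ)` has dimension larger than `k`. -/
theorem exists_large (k : ℕ) (hk : 1 ≤ k) :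
    ∃ (n : ℕ) (φ : LA n k → Fin (k + 1) → Bool), 1 ≤ n ∧ ¬ HasRealizer (Bip (Rel φ)) k := by
  obtain ⟨n, hn1, hn⟩ := arith k hk
  suffices h : ∃ φ : LA n k → Fin (k + 1) → Bool, ¬ HasRealizer (Bip (Rel φ)) k by
    obtain ⟨φ, hφ⟩ := h
    exact ⟨n, φ, hn1, hφ⟩
  by_contra hcon
  push Not at hcon
  exact absurd (count_bound rfl hcon) (not_le.2 hn)

end Pool.Agent.H328.ProdDim
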