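import Pool.Agent.H328_ProdDim.Basic

/-!
# The posets `P(φ)`: points of two grids, diagonal lines, and a choice of copies
-/

set_option autoImplicit false

namespace Pool.Agent.H328.ProdDim

/-- A grid. -/
abbrev X (n k : ℕ) := Fin n → Fin (k + 1)

/-- The lines: two directions and two base points. -/
abbrev LA (n k : ℕ) := Fin n × Fin n × X n k × X n k

/-- The points: a point of the product of two grids, two labels and a copy. -/
abbrev LB (n k : ℕ) := X n k × X n k × Fin (k + 1) × Fin (k + 1) × Bool

variable {n k : ℕ}

/-- The point of the line `a` with parameter `t` and copy `v`. -/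
def pt (a : LA n k) (t : Fin (k + 1)) (v : Bool) : LB n k :=
  (Function.update a.2.2.1 a.1 t, Function.update a.2.2.2 a.2.1 t, a.2.2.1 a.1, a.2.2.2 a.2.1, v)

/-- The incidence relation given by a choice `φ` of copies. -/
def Rel (φ : LA n k → Fin (k + 1) → Bool) (a : LA n k) (b : LB n k) : Prop :=
  ∃ t, b = pt a t (φ a t)

/-- Reversing values and/or indices. -/
def key0 (σ τ : Bool) (x : X n k) : X n k := fun l =>
  if σ then (x (if τ then l.rev else l)).rev else x (if τ then l.rev else l)

/-- The rank in the lexicographic order. -/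
noncomputable def rk (x : X n k) : ℕ := by
  classical
  exact (Finset.univ.filter (fun y : X n k => toLex y < toLex x)).card

theorem rk_lt {x y : X n k} (h : toLex x < toLex y) : rk x < rk y := by
  classical
  unfold rk
  refine Finset.card_lt_card ?_
  rw [Finset.ssubset_iff_of_subset]
  · refine ⟨x, ?_, ?_⟩
    · simpa using h
    · simp only [Finset.mem_filter, Finset.mem_univ, true_and]
      exact lt_irrefl _
  · intro z hz
    simp only [Finset.mem_filter, Finset.mem_univ, true_and] at hz ⊢
    exact lt_trans hz h

theorem lex_lt_of {x y : X n k} (i : Fin n) (h1 : ∀ j, j < i → x j = y j) (h2 : x i < y i) :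
    toLex x < toLex y := ⟨i, h1, h2⟩

/-- The eight keys. -/
noncomputable def key (r : Bool × Bool × Bool) (b : LB n k) : ℕ :=
  rk (key0 r.1 r.2.1 (if r.2.2 then b.2.1 else b.1))

theorem exists_sigma {t1 t2 : Fin (k + 1)} (h : t2 ≠ t1) :
    ∃ σ : Bool, (if σ then t2.rev else t2) < (if σ then t1.rev else t1) := by
  rcases lt_or_gt_of_ne h with h | h
  · exact ⟨false, by simpa using h⟩
  · exact ⟨true, by simpa using h⟩

theorem sep1 {i i' : Fin n} {x x' : X n k} {t0 t1 t2 : Fin (k + 1)} (hii : i ≠ i')
    (h : Function.update x i t0 = Function.update x' i' t1) (ht : t2 ≠ t1) :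
    ∃ σ τ, ∀ t, toLex (key0 σ τ (Function.update x' i' t2)) <
      toLex (key0 σ τ (Function.update x i t)) := by
  have hx : ∀ l, l ≠ i → l ≠ i' → x' l = x l := by
    intro l h1 h2
    have := congrFun h l
    rw [Function.update_of_ne h1, Function.update_of_ne h2] at this
    exact this.symm
  have hx' : x i' = t1 := by
    have := congrFun h i'
    rw [Function.update_of_ne hii.symm, Function.update_self] at this
    exact this
  obtain ⟨σ, hσ⟩ := exists_sigma ht
  rcases lt_or_gt_of_ne hii with hlt | hlt
  · refine ⟨σ, true, fun t => ?_⟩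
    refine lex_lt_of i'.rev (fun j hj => ?_) ?_
    · have hj' : i' < j.rev := by
        have := Fin.rev_lt_rev.2 hj
        simpa using this
      have h1 : j.rev ≠ i' := ne_of_gt hj'
      have h2 : j.rev ≠ i := ne_of_gt (lt_trans hlt hj')
      simp only [key0, if_true]
      rw [Function.update_of_ne h1, Function.update_of_ne h2, hx _ h2 h1]
    · simp only [key0, if_true, Fin.rev_rev]
      rw [Function.update_self, Function.update_of_ne hii.symm, hx']
      exact hσ
  · refine ⟨σ, false, fun t => ?_⟩
    refine lex_lt_of i' (fun j hj => ?_) ?_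
    · have h1 : j ≠ i' := ne_of_lt hj
      have h2 : j ≠ i := ne_of_lt (lt_trans hj hlt)
      simp only [key0, Bool.false_eq_true, if_false]
      rw [Function.update_of_ne h1, Function.update_of_ne h2, hx _ h2 h1]
    · simp only [key0, Bool.false_eq_true, if_false]
      rw [Function.update_self, Function.update_of_ne hii.symm, hx']
      exact hσ

theorem sep2 {i : Fin n} {x : X n k} {t t' : Fin (k + 1)} (ht : t' ≠ t) :
    ∃ σ, toLex (key0 σ false (Function.update x i t')) <
      toLex (key0 σ false (Function.update x i t)) := by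
  obtain ⟨σ, hσ⟩ := exists_sigma ht
  refine ⟨σ, lex_lt_of i (fun j hj => ?_) ?_⟩
  · have h1 : j ≠ i := ne_of_lt hj
    simp only [key0, Bool.false_eq_true, if_false]
    rw [Function.update_of_ne h1, Function.update_of_ne h1]
  · simp only [key0, Bool.false_eq_true, if_false]
    rw [Function.update_self, Function.update_self]
    exact hσ

/-- Two different lines through a common point are separated from each other's points. -/
theorem key_sep {a a' : LA n k} (haa : a ≠ a') {t0 t1 t2 : Fin (k + 1)} {v v' : Bool}
    (h : pt a t0 v = pt a' t1 v') (ht : t2 ≠ t1) (w : Bool) :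
    ∃ r, ∀ t v'', key r (pt a' t2 w) < key r (pt a t v'') := by
  obtain ⟨i, j, x, y⟩ := a
  obtain ⟨i', j', x', y'⟩ := a'
  simp only [pt, Prod.mk.injEq] at h
  obtain ⟨h1, h2, h3, h4, -⟩ := h
  by_cases hi : i = i'
  · by_cases hj : j = j'
    · exfalso
      subst hi
      subst hj
      apply haa
      have hx : x = x' := by
        funext l
        by_cases hl : l = i
        · rw [hl]; exact h3
        · have := congrFun h1 l
          rwa [Function.update_of_ne hl, Function.update_of_ne hl] at this
      have hy : y = y' := by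
        funext l
        by_cases hl : l = j
        · rw [hl]; exact h4
        · have := congrFun h2 l
          rwa [Function.update_of_ne hl, Function.update_of_ne hl] at this
      rw [hx, hy]
    · obtain ⟨σ, τ, hst⟩ := sep1 hj h2 ht
      refine ⟨(σ, τ, true), fun t v'' => rk_lt ?_⟩
      simpa only [pt, if_true] using hst t
  · obtain ⟨σ, τ, hst⟩ := sep1 hi h1 ht
    refine ⟨(σ, τ, false), fun t v'' => rk_lt ?_⟩
    simpa only [pt, Bool.false_eq_true, if_false] using hst t

theorem univ_ne (k : ℕ) : (Finset.univ : Finset (Fin (k + 1))).Nonempty :=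
  ⟨0, Finset.mem_univ _⟩

/-- The nine monotone maps. -/
noncomputable def hmap (φ : LA n k → Fin (k + 1) → Bool) :
    Option (Bool × Bool × Bool) → Bip (Rel φ) → ℕ
  | none, Sum.inl _ => 0
  | none, Sum.inr _ => 1
  | some r, Sum.inl a =>
      Finset.univ.inf' (univ_ne k) (fun t => key r (pt a t (φ a t)))
  | some r, Sum.inr b => key r b

theorem hmap_mono (φ : LA n k → Fin (k + 1) → Bool) (r : Option (Bool × Bool × Bool)) :
    Monotone (hmap φ r) := by
  intro x y hxy
  rcases r with _ | r
  · rcases x with a | b <;> rcases y with a' | b'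
    · exact le_rfl
    · exact Nat.zero_le 1
    · exact hxy.elim
    · exact le_rfl
  · rcases x with a | b <;> rcases y with a' | b'
    · have h : a = a' := hxy
      subst h
      exact le_rfl
    · obtain ⟨t, ht⟩ : Rel φ a b' := hxy
      show Finset.univ.inf' (univ_ne k) (fun t => key r (pt a t (φ a t))) ≤ key r b'
      rw [ht]
      exact Finset.inf'_le (fun t => key r (pt a t (φ a t))) (Finset.mem_univ t)
    · exact hxy.elim
    · have h : b = b' := hxy
      subst h
      exact le_rfl

theorem hmap_sep (hk : 1 ≤ k) (φ : LA n k → Fin (k + 1) → Bool) (x y : Bip (Rel φ))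
    (hxy : ¬ x ≤ y) (hfar : ¬ Far x y) : ∃ r, hmap φ r y < hmap φ r x := by
  unfold Far at hfar
  push Not at hfar
  obtain ⟨x', y', h1, h2, h3⟩ := hfar
  -- a common tool
  have tool : ∀ (a a' : LA n k) (t0 t1 t2 : Fin (k + 1)), a ≠ a' →
      pt a t0 (φ a t0) = pt a' t1 (φ a' t1) → t2 ≠ t1 →
      ∃ r, key r (pt a' t2 (φ a' t2)) < hmap φ (some r) (Sum.inl a) := by
    intro a a' t0 t1 t2 haa h ht
    obtain ⟨r, hr⟩ := key_sep haa h ht (φ a' t2)
    refine ⟨r, ?_⟩
    show _ < Finset.univ.inf' (univ_ne k) (fun t => key r (pt a t (φ a t)))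
    rw [Finset.lt_inf'_iff]
    intro t _
    exact hr t _
  rcases x with a | b <;> rcases y with a' | b'
  · -- both lines
    have haa : a ≠ a' := hxy
    rcases x' with c | c
    · have hc : c = a' := h1
      subst hc
      rcases y' with d | d
      · have e1 : c = d := h2
        have e2 : a = d := h3
        exact absurd (e2.trans e1.symm) haa
      · obtain ⟨t1, ht1⟩ : Rel φ c d := h2
        obtain ⟨t0, ht0⟩ : Rel φ a d := h3
        obtain ⟨t2, ht2⟩ : ∃ t2 : Fin (k + 1), t2 ≠ t1 := by
          have : Nontrivial (Fin (k + 1)) := Fin.nontrivial_iff_two_le.2 (by omega)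
          exact exists_ne t1
        obtain ⟨r, hr⟩ := tool a c t0 t1 t2 haa (ht0.symm.trans ht1) ht2
        refine ⟨some r, lt_of_le_of_lt ?_ hr⟩
        exact Finset.inf'_le (fun t => key r (pt c t (φ c t))) (Finset.mem_univ t2)
    · exact h1.elim
  · -- line and point
    have hR : ¬ Rel φ a b' := hxy
    rcases x' with c | c
    · obtain ⟨t2, ht2⟩ : Rel φ c b' := h1
      rcases y' with d | d
      · have e1 : c = d := h2
        have e2 : a = d := h3
        exact absurd ⟨t2, by rw [e2, ← e1]; exact ht2⟩ hR
      · obtain ⟨t1, ht1⟩ : Rel φ c d := h2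
        obtain ⟨t0, ht0⟩ : Rel φ a d := h3
        have haa : a ≠ c := by
          rintro rfl
          exact hR ⟨t2, ht2⟩
        have ht : t2 ≠ t1 := by
          rintro rfl
          exact hR ⟨t0, by rw [ht2, ← ht1, ht0]⟩
        obtain ⟨r, hr⟩ := tool a c t0 t1 t2 haa (ht0.symm.trans ht1) ht
        refine ⟨some r, ?_⟩
        show key r b' < _
        rw [ht2]
        exact hr
    · have e1 : c = b' := h1
      rcases y' with d | d
      · exact h2.elim
      · have e2 : c = d := h2
        have e3 : Rel φ a d := h3
        rw [← e2, e1] at e3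
        exact absurd e3 hR
  · -- point and line
    exact ⟨none, Nat.zero_lt_one⟩
  · -- both points
    have hbb : b ≠ b' := hxy
    rcases y' with d | d
    · exact h3.elim
    · have e3 : b = d := h3
      subst e3
      rcases x' with c | c
      · obtain ⟨t', ht'⟩ : Rel φ c b' := h1
        obtain ⟨t, ht⟩ : Rel φ c b := h2
        have htt : t' ≠ t := by
          rintro rfl
          exact hbb (ht.trans ht'.symm)
        obtain ⟨σ, hσ⟩ := sep2 (i := c.1) (x := c.2.2.1) htt
        refine ⟨some (σ, false, false), ?_⟩
        show key (σ, false, false) b' < key (σ, false, false) b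
        rw [ht, ht']
        refine rk_lt ?_
        simpa only [pt, Bool.false_eq_true, if_false] using hσ
      · have e1 : c = b' := h1
        have e2 : c = b := h2
        exact absurd (e2.symm.trans e1) hbb

end Pool.Agent.H328.ProdDim
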