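import Pool.Agent.H328_ProdDim.Count

/-!
# Products whose dimension is much smaller than the sum of the dimensions
-/

set_option autoImplicit false

namespace Pool.Agent.H328.ProdDim

/-- The index type: far pairs of the poset and three more points. -/
abbrev Idx (P : Type) [PartialOrder P] : Type := {p : P × P // Far p.1 p.2} ⊕ Fin 3

theorem hasRealizer_zero (P : Type) [PartialOrder P] [Subsingleton P] : HasRealizer P 0 :=
  ⟨fun i => i.elim0, fun i => i.elim0, fun x y => by
    constructor
    · intro _ i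
      exact i.elim0
    · intro _
      exact le_of_eq (Subsingleton.elim x y)⟩

/-- The main construction. -/
theorem main (k : ℕ) (hk : 1 ≤ k) :
    ∃ (n : ℕ) (φ : LA n k → Fin (k + 1) → Bool), 1 ≤ n ∧ ¬ HasRealizer (Bip (Rel φ)) k ∧
      ∀ (Q : Type) [PartialOrder Q] (S : Q → Set (Idx (Bip (Rel φ)))),
        (∀ e e', e ≤ e' ↔ S e ⊆ S e') →
        HasRealizer (Bip (Rel φ) × Q) (Nat.card (Idx (Bip (Rel φ))) + 9) := by
  classical
  obtain ⟨n, φ, hn, hφ⟩ := exists_large k hk
  refine ⟨n, φ, hn, hφ, ?_⟩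
  intro Q _ S hS
  let i1 : Fintype {p : Bip (Rel φ) × Bip (Rel φ) // Far p.1 p.2} := Fintype.ofFinite _
  have h := hasRealizer_prod_far (κ := Option (Bool × Bool × Bool)) S hS (hmap φ)
    (hmap_mono φ) (fun x y h1 h2 => hmap_sep hk φ x y h1 h2)
  rw [Nat.card_eq_fintype_card]
  have h9 : Fintype.card (Option (Bool × Bool × Bool)) = 9 := by simp
  rw [h9] at h
  exact h

theorem idx_three {P : Type} [PartialOrder P] (i j : Idx P) : ∃ l, l ≠ i ∧ l ≠ j := by
  have h : ∃ m : Fin 3, (Sum.inr m : Idx P) ≠ i ∧ (Sum.inr m : Idx P) ≠ j := by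
    by_contra hcon
    push Not at hcon
    by_cases h0 : (Sum.inr 0 : Idx P) = i
    · have h1 := hcon 1 (by rw [← h0]; simp)
      have h2 := hcon 2 (by rw [← h0]; simp)
      rw [← h1] at h2
      simp at h2
    · have h1 := hcon 0 h0
      by_cases h2 : (Sum.inr 1 : Idx P) = i
      · have h3 := hcon 2 (by rw [← h2]; simp)
        rw [← h1] at h3
        simp at h3
      · have h3 := hcon 1 h2
        rw [← h1] at h3
        simp at h3
  obtain ⟨m, hm⟩ := h
  exact ⟨_, hm⟩

/-- The dimension: the least number of linear orders whose intersection is the order. -/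
noncomputable def pdim (P : Type) [PartialOrder P] : ℕ := sInf {d | HasRealizer P d}

theorem pdim_le {P : Type} [PartialOrder P] {d : ℕ} (h : HasRealizer P d) : pdim P ≤ d :=
  Nat.sInf_le h

theorem le_pdim {P : Type} [PartialOrder P] [Finite P] {m : ℕ}
    (h : ∀ a, HasRealizer P a → m ≤ a) : m ≤ pdim P := by
  let i1 : Fintype P := Fintype.ofFinite P
  refine le_csInf ⟨_, hasRealizer_card P⟩ ?_
  intro a ha
  exact h a ha

end Pool.Agent.H328.ProdDim
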